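import Pool.Agent.Helper7.HL.Stmts

set_option autoImplicit false

namespace Pool.Agent.Helper55.HL

open Finset MvPolynomial
open Pool.Agent.Helper7.HL Pool.Agent.Helper32.HG

theorem c1_ind {N : ℕ} (t : Finset (Fin N)) :
    (∑ i ∈ t, Finsupp.single i 1 : Fin N →₀ ℕ) = ex (fun i => if i ∈ t then 1 else 0) := by
  ext j
  rw [ex_apply, Finsupp.finsetSum_apply]
  simp [Finsupp.single_apply]

theorem c1_coeff_esymm (R : Type) [CommRing R] (N c : ℕ) (γ : Fin N → ℕ) :
    coeff (ex γ) (esymm (Fin N) R c) = if (∀ i, γ i ≤ 1) ∧ ∑ i, γ i = c then 1 else 0 := by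
  classical
  rw [esymm_eq_sum_monomial, coeff_sum]
  simp only [c1_ind, coeff_monomial]
  split_ifs with h
  · obtain ⟨h1, h2⟩ := h
    have hγ : (fun i => if i ∈ univ.filter (fun i => γ i = 1) then 1 else 0) = γ := by
      funext i
      have := h1 i
      simp only [mem_filter, mem_univ, true_and]
      split_ifs with hi
      · exact hi.symm
      · omega
    rw [Finset.sum_eq_single (univ.filter (fun i => γ i = 1))]
    · rw [hγ, if_pos rfl]
    · intro t _ hne
      rw [if_neg]
      intro he
      apply hne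
      have h3 := ex_inj he
      ext i
      have h4 := congrFun h3 i
      simp only [mem_filter, mem_univ, true_and]
      constructor
      · intro hi
        rw [if_pos hi] at h4
        exact h4.symm
      · intro hi
        by_contra hc
        rw [if_neg hc] at h4
        omega
    · intro hnot
      exfalso
      apply hnot
      rw [mem_powersetCard]
      refine ⟨Finset.subset_univ _, ?_⟩
      rw [← h2, card_filter]
      apply Finset.sum_congr rfl
      intro i _
      have h5 := congrFun hγ i
      simp only [mem_filter, mem_univ, true_and] at h5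
      exact h5
  · apply Finset.sum_eq_zero
    intro t ht
    rw [if_neg]
    intro he
    apply h
    have h3 := ex_inj he
    rw [mem_powersetCard] at ht
    constructor
    · intro i
      rw [← h3]
      simp only
      split_ifs <;> omega
    · rw [← h3, ← ht.2]
      simp

theorem c1_perm {N : ℕ} (γ γ' : Fin N → ℕ) (h : ∀ i, γ i ≤ 1) (h' : ∀ i, γ' i ≤ 1)
    (hs : ∑ i, γ i = ∑ i, γ' i) : ∃ σ : Equiv.Perm (Fin N), γ ∘ σ = γ' := by
  classical
  have hc : ∀ δ : Fin N → ℕ, (∀ i, δ i ≤ 1) → Fintype.card {i // δ i = 1} = ∑ i, δ i := by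
    intro δ hδ
    rw [Fintype.card_subtype, card_filter]
    apply Finset.sum_congr rfl
    intro i _
    have := hδ i
    split_ifs <;> omega
  have e : {i // γ' i = 1} ≃ {i // γ i = 1} :=
    Fintype.equivOfCardEq (by rw [hc γ h, hc γ' h', hs])
  refine ⟨e.extendSubtype, ?_⟩
  funext i
  simp only [Function.comp_apply]
  by_cases hi : γ' i = 1
  · rw [hi]
    exact e.extendSubtype_mem i hi
  · have h1 := e.extendSubtype_not_mem i hi
    have h2 := h (e.extendSubtype i)
    have h3 := h' i
    omega

theorem c1_rowl (N c : ℕ) (i : Fin N) : rowl N [c] i = if i.val < c then 1 else 0 := by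
  unfold rowl
  by_cases h : i.val < c
  · simp [h]
  · simp [h]

theorem c1_clf {R : Type} [CommRing R] (q t : R) (c : ℕ) :
    clf q t [c] = ∏ i ∈ range c, (1 - t ^ (i + 1)) := by
  have h1 : clf q t [c] = ∏ i : Fin c, (1 - t * t ^ (c - 1 - i.val)) := by
    simp [clf, rowl, dl]
  rw [h1, ← Finset.prod_range (fun i => 1 - t * t ^ (c - 1 - i)), ← Finset.prod_range_reflect]
  apply Finset.prod_congr rfl
  intro i hi
  rw [Finset.mem_range] at hi
  have : c - 1 - (c - 1 - i) = i := by omega
  rw [this, pow_succ, mul_comm]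

theorem c1_field (hUN : ST_UN) (hTT : ST_TT) (hSTB : ST_STB) (K : Type) [Field K] (q t : K)
    (hG : GQT q t) (N c : ℕ) (hc : c ≤ N) :
    fJ q t N [c] = C (∏ i ∈ range c, (1 - t ^ (i + 1))) * esymm (Fin N) K c := by
  have hdec : Dec [c] := List.pairwise_singleton _ _
  have hsym : (fJ q t N [c]).IsSymmetric := by
    unfold fJ
    exact (hSTB K _).1 N
  obtain ⟨hT1, hT2⟩ := hTT K q t hG N [c] hdec (by simpa using hc)
  have hsum := (hUN K q t).2.2 N [c] hdec
  apply ext_ex
  intro γ
  rw [coeff_C_mul, c1_coeff_esymm]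
  split_ifs with h
  · rw [mul_one, ← c1_clf q t c, ← hT2]
    have hr : ∑ i, rowl N [c] i = c := by
      simp only [c1_rowl]
      rw [← Finset.sum_range (fun i => if i < c then 1 else 0), ← Finset.card_filter]
      have : (range N).filter (fun i => i < c) = range c := by
        ext i
        simp only [mem_filter, Finset.mem_range]
        omega
      rw [this, card_range]
    obtain ⟨σ, hσ⟩ := c1_perm γ (rowl N [c]) h.1 (by
      intro i
      rw [c1_rowl]
      split_ifs <;> omega) (by rw [h.2, hr])
    rw [← hσ, coeff_symm hsym]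
  · rw [mul_zero]
    by_contra hne
    apply h
    constructor
    · intro i
      obtain ⟨S, hS, hle⟩ := hT1 γ hne {i}
      rw [Finset.card_singleton, Finset.card_eq_one] at hS
      obtain ⟨s, rfl⟩ := hS
      rw [Finset.sum_singleton, Finset.sum_singleton, c1_rowl] at hle
      split_ifs at hle <;> omega
    · have := hsum γ hne
      simpa using this

theorem st_C1 (hUN : ST_UN) (hTT : ST_TT) (hGEN : ST_GEN) (hMP : ST_MP) (hSTB : ST_STB) :
    ST_C1 := by
  intro R _ q t N c hc
  obtain ⟨hinj, hq, ht, _, _, hG, _⟩ := hGEN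
  -- over Z[q][t]
  have h0 : fJ qz tz N [c] = C (∏ i ∈ range c, (1 - tz ^ (i + 1))) * esymm (Fin N) R0 c := by
    apply MvPolynomial.map_injective emb hinj
    rw [(hMP R0 (RatFunc (RatFunc ℚ)) emb).2.1, hq, ht, map_mul, map_C, map_esymm, map_prod,
      c1_field hUN hTT hSTB _ qF tF hG N c hc]
    simp only [map_sub, map_one, map_pow, ht]
  set φ : R0 →+* R := Polynomial.eval₂RingHom (Polynomial.eval₂RingHom (Int.castRingHom R) q) t
    with hφ
  have e1 : φ qz = q := by
    simp [hφ, qz]
  have e2 : φ tz = t := by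
    simp [hφ, tz]
  have h1 := congrArg (MvPolynomial.map φ) h0
  rw [(hMP R0 R φ).2.1, e1, e2, map_mul, map_C, map_esymm, map_prod] at h1
  simp only [map_sub, map_one, map_pow, e2] at h1
  exact h1

end Pool.Agent.Helper55.HL
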