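import Pool.Agent.Helper7.HL.Stmts

set_option autoImplicit false

namespace Pool.Agent.Helper55.HL

open Finset MvPolynomial
open Pool.Agent.Helper7.HL Pool.Agent.Helper32.HG

theorem gen_inj : Function.Injective emb := by
  unfold emb
  intro x y h
  simp only [RingHom.comp_apply] at h
  have h1 := RatFunc.algebraMap_injective (RatFunc ℚ) h
  refine Polynomial.map_injective _ ?_ h1
  intro u v huv
  simp only [RingHom.comp_apply] at huv
  have h2 := RatFunc.algebraMap_injective ℚ huv
  exact Polynomial.map_injective _ (RingHom.injective_int _) h2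

theorem gen_q : emb qz = qF := by
  unfold emb qz qF
  simp

theorem gen_t : emb tz = tF := by
  unfold emb tz tF
  simp

theorem gen_ne (a b : ℕ) (h : 0 < a + b) : (qz : R0) ^ a * tz ^ b ≠ 1 := by
  intro he
  unfold qz tz at he
  rw [← Polynomial.C_pow, Polynomial.C_mul_X_pow_eq_monomial] at he
  have h0 := congrArg (fun p => Polynomial.coeff p b) he
  simp only [Polynomial.coeff_monomial, if_true] at h0
  by_cases hb : b = 0
  · subst hb
    rw [Polynomial.coeff_one_zero] at h0
    have h1 := congrArg Polynomial.natDegree h0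
    rw [Polynomial.natDegree_X_pow, Polynomial.natDegree_one] at h1
    omega
  · rw [Polynomial.coeff_one, if_neg hb] at h0
    exact pow_ne_zero a Polynomial.X_ne_zero h0

theorem gen_ne' (a b : ℕ) (h : 0 < a + b) : qF ^ a * tF ^ b ≠ 1 := by
  intro he
  apply gen_ne a b h
  apply gen_inj
  rw [map_mul, map_pow, map_pow, gen_q, gen_t, he, map_one]

theorem st_GEN : ST_GEN := by
  refine ⟨gen_inj, gen_q, gen_t, ?_, ?_, ?_, ?_⟩
  · intro h
    have h1 := gen_ne' 1 0 (by norm_num)
    rw [← gen_q] at h
    have h2 : (qz : R0) = 0 := gen_inj (by rw [h, map_zero])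
    unfold qz at h2
    rw [Polynomial.C_eq_zero] at h2
    exact Polynomial.X_ne_zero h2
  · intro h
    rw [← gen_t] at h
    have h2 : (tz : R0) = 0 := gen_inj (by rw [h, map_zero])
    exact Polynomial.X_ne_zero h2
  · intro a b h he
    exact gen_ne' a b h (sub_eq_zero.mp he).symm
  · intro a b h he
    have h1 := (sub_eq_zero.mp he).symm
    rw [inv_pow, inv_pow, ← mul_inv] at h1
    exact gen_ne' a b h (inv_eq_one.mp h1)

end Pool.Agent.Helper55.HL
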