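import Pool.Agent.Helper7.HL.Stmts

set_option autoImplicit false

namespace Pool.Agent.Helper55.HL

open Finset MvPolynomial
open Pool.Agent.Helper7.HL Pool.Agent.Helper32.HG

theorem q1_scf_C {R : Type} [CommRing R] (N : ℕ) (μ : Fin N → ℕ) (a : R)
    (p : MvPolynomial (Fin N) R) : scf N μ (C a * p) = a * scf N μ p := by
  unfold scf
  rw [← mul_assoc, mul_comm (Dl N R) (C a), mul_assoc, coeff_C_mul]

theorem q1_prod {R : Type} [CommRing R] (hC1 : ST_C1) (hC2 : ST_C2) (t : R) (n : ℕ)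
    (cs : List ℕ) (hcs : ∀ c ∈ cs, c ≤ n) :
    fJ 1 t n cs = C (cs.map (fun c => ∏ i ∈ range c, (1 - t ^ (i + 1)))).prod *
      (cs.map (fun c => esymm (Fin n) R c)).prod := by
  rw [hC2]
  induction cs with
  | nil => simp
  | cons c cs ih =>
    have h1 := ih (fun c' hc' => hcs c' (List.mem_cons_of_mem _ hc'))
    simp only [List.map_cons, List.prod_cons, h1, C_mul]
    rw [hC1 R 1 t n c (hcs c List.mem_cons_self)]
    ring

theorem st_Q1 (hC1 : ST_C1) (hC2 : ST_C2) (hMP : ST_MP) (hBU : ST_BU) (hBS2 : ST_BS2) :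
    ST_Q1 := by
  intro n cs μ hdec hcn hμ T hT
  have hB := hBS2 n cs μ hdec hμ T hT
  rw [hBU n cs hdec hcn] at hB
  -- the value of the number of highest weight tableaux
  have hcard : scf n μ ((cs.map (fun c => esymm (Fin n) (Polynomial ℤ) c)).prod) =
      Polynomial.C (T.card : ℤ) := by
    have hm := hMP (Polynomial ℤ) (Polynomial ℤ)
      (Polynomial.C.comp (Polynomial.evalRingHom (1 : ℤ)))
    have h1 := hm.2.2.2.2.1 n μ (fJ (Polynomial.X : Polynomial ℤ) 0 n cs)
    rw [hB, hm.2.1] at h1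
    have e1 : (Polynomial.C.comp (Polynomial.evalRingHom (1 : ℤ))) (Polynomial.X : Polynomial ℤ)
        = 1 := by simp
    have e2 : (Polynomial.C.comp (Polynomial.evalRingHom (1 : ℤ))) (0 : Polynomial ℤ)
        = 0 := by simp
    rw [e1, e2, q1_prod hC1 hC2 0 n cs hcn, q1_scf_C] at h1
    have e3 : (cs.map (fun c => ∏ i ∈ range c, (1 - (0 : Polynomial ℤ) ^ (i + 1)))).prod = 1 := by
      simp
    rw [e3, one_mul] at h1
    rw [← h1, map_sum]
    simp
  constructor
  · have hm := hMP R0 (Polynomial ℤ) (Polynomial.mapRingHom (Polynomial.evalRingHom (1 : ℤ)))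
    have h1 := hm.2.2.2.2.1 n μ (fJ qz tz n cs)
    rw [hm.2.1] at h1
    have e1 : (Polynomial.mapRingHom (Polynomial.evalRingHom (1 : ℤ))) qz = 1 := by
      simp [qz]
    have e2 : (Polynomial.mapRingHom (Polynomial.evalRingHom (1 : ℤ))) tz = Polynomial.X := by
      simp [tz]
    rw [e1, e2, q1_prod hC1 hC2 _ n cs hcn, q1_scf_C, hcard] at h1
    unfold aP
    rw [← Polynomial.coe_mapRingHom, h1, mul_comm]
  · have hm := hMP R0 (Polynomial ℤ) (Polynomial.constantCoeff)
    have h1 := hm.2.2.2.2.1 n μ (fJ qz tz n cs)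
    rw [hm.2.1] at h1
    have e1 : (Polynomial.constantCoeff (R := Polynomial ℤ)) qz = Polynomial.X := by
      simp [qz]
    have e2 : (Polynomial.constantCoeff (R := Polynomial ℤ)) tz = 0 := by
      simp [tz]
    rw [e1, e2, hB] at h1
    unfold aP
    rw [← h1]
    simp

end Pool.Agent.Helper55.HL
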