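import Pool.Agent.Helper7.HL.Stmts

set_option autoImplicit false

namespace Pool.Agent.Helper55.HL

open Finset MvPolynomial
open Pool.Agent.Helper7.HL Pool.Agent.Helper32.HG

theorem st_RES (hID : ST_ID) (hCO : ST_CO) (hSC : ST_SC) (hSTB : ST_STB) (hUN : ST_UN)
    (hGEN : ST_GEN) (hMP : ST_MP) : ST_RES := by
  intro n P hP lam hlam
  obtain ⟨_, hq, ht, _, _, hG, _⟩ := hGEN
  obtain ⟨hdec, hcn, hsum, hrow, hclf⟩ := hCO n lam hlam
  have h1 := hID (RatFunc (RatFunc ℚ)) n qF tF hG P hP (cols lam) hdec hcn hsum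
    (by rw [hrow]; exact hlam)
  rw [hrow, hclf] at h1
  rw [← h1]
  have hsym : (fJ qF tF n (cols lam)).IsSymmetric := by
    unfold fJ
    exact (hSTB (RatFunc (RatFunc ℚ)) _).1 n
  have hdeg : ∀ γ : Fin n → ℕ, coeff (ex γ) (fJ qF tF n (cols lam)) ≠ 0 → ∑ i, γ i = n := by
    intro γ hγ
    have h2 := (hUN (RatFunc (RatFunc ℚ)) qF tF).2.2 n (cols lam) hdec γ hγ
    exact h2.trans hsum
  have h3 := hSC n (RatFunc (RatFunc ℚ)) (fJ qF tF n (cols lam)) hsym hdeg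
  have hm := hMP R0 (RatFunc (RatFunc ℚ)) emb
  have h4 : ∀ μ : Fin n → ℕ, scf n μ (fJ qF tF n (cols lam)) = emb (aP n (cols lam) μ) := by
    intro μ
    unfold aP
    rw [hm.2.2.2.2.1 n μ, hm.2.1 qz tz n (cols lam), hq, ht]
  refine h3.trans (Finset.sum_congr rfl fun μ _ => ?_)
  rw [← h4 μ]

end Pool.Agent.Helper55.HL
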